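import Pool.Agent.Helper9.FX.StP
import Pool.Agent.Helper84.FX.StX

/-!
# Bridge: the target of T4 in the notations of helper84
-/

set_option autoImplicit false

namespace Pool.Agent.Helper9.FX

open Set Complex
open Pool.Agent.Helper72.FX (StKK)

theorem hPHX (h : Pool.Agent.Helper9.FX.StPHI) (hKK : StKK) :
    Pool.Agent.Helper84.FX.StPHI := by
  intro U hU
  obtain ⟨hUo, s, hs, ht⟩ := hU
  have h1 : Pool.Agent.Helper84.FX.Phi = Pool.Agent.Helper9.FX.Phi := by
    funext q
    unfold Pool.Agent.Helper84.FX.Phi Pool.Agent.Helper9.FX.Phi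
    split_ifs <;> rfl
  rw [h1]
  exact h hKK U s ⟨hUo, hs, ht⟩

end Pool.Agent.Helper9.FX
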