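import Pool.Agent.Helper9.FX.M_PHI
import Pool.Agent.Helper9.FX.M_PHX
import Pool.Agent.Helper16.FX.M_PKV
import Pool.Agent.Helper45.FX.M_PMX
import Pool.Agent.Helper78.FX.M_PGE
import Pool.Agent.Helper20.FX.M_PGK
import Pool.Agent.Helper36.FX.M_PHA
import Pool.Agent.Helper60.FX.M_PHB
import Pool.Agent.Helper53.FX.M_PCA
import Pool.Agent.Helper27.FX.M_PCT
import Pool.Agent.Helper22.FX.M_PQW
import Pool.Agent.Helper3.FX.M_PPW
import Pool.Agent.Helper24.FX.M_PPI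
import Pool.Agent.Helper10.FX.M_PZV
import Pool.Agent.Helper79.FX.M_KK

/-!
# Section T4: all modules together
-/

set_option autoImplicit false

namespace Pool.Agent.Helper9.FX

open Pool.Agent.Helper84.FX (StGLU StCN2 StHTP StHEQ)

/-- T4 from the toolkit of helper84 -/
theorem pPHI (hGLU : StGLU) (hCN2 : StCN2) (hHTP : StHTP) (hHEQ : StHEQ) :
    Pool.Agent.Helper9.FX.StPHI :=
  hPHI hGLU hCN2 hHTP
    (Pool.Agent.Helper36.FX.hPHA Pool.Agent.Helper16.FX.hPKV Pool.Agent.Helper45.FX.hPMX)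
    (Pool.Agent.Helper60.FX.hPHB Pool.Agent.Helper45.FX.hPMX Pool.Agent.Helper78.FX.hPGE
      Pool.Agent.Helper20.FX.hPGK)
    Pool.Agent.Helper53.FX.hPCA Pool.Agent.Helper27.FX.hPCT
    (Pool.Agent.Helper22.FX.hPQW hHEQ Pool.Agent.Helper53.FX.hPCA Pool.Agent.Helper27.FX.hPCT)
    (Pool.Agent.Helper3.FX.hPPW hHEQ) (Pool.Agent.Helper24.FX.hPPI hHEQ)
    Pool.Agent.Helper10.FX.hPZV

/-- the target in the notations of helper84 -/
theorem xPHI (hGLU : StGLU) (hCN2 : StCN2) (hHTP : StHTP) (hHEQ : StHEQ) :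
    Pool.Agent.Helper84.FX.StPHI :=
  hPHX (pPHI hGLU hCN2 hHTP hHEQ) Pool.Agent.Helper79.FX.hKK

end Pool.Agent.Helper9.FX
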