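import Pool.Agent.Helper84.FX.StT

/-!
# Module LBL: labels of the small cubes of a fine grid
-/

set_option autoImplicit false

namespace Pool.Agent.Helper9.FX

open Pool.Agent.Helper84.FX Set

private theorem isCompact_Cb (n : ℕ) : IsCompact (Cb n) := by
  have h : Cb n = Icc (0 : Fin n → ℝ) 1 := by
    ext u
    simp only [Cb, mem_ofPred_eq, mem_Icc, Pi.le_def, Pi.zero_apply, Pi.one_apply]
    constructor
    · intro h
      exact ⟨fun i => (h i).1, fun i => (h i).2⟩
    · intro h i
      exact ⟨h.1 i, h.2 i⟩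
  rw [h]
  exact isCompact_Icc

private theorem isClosed_Bd (n : ℕ) : IsClosed (Bd n) := by
  have h : Bd n = Cb n ∩ ⋃ i, {u : Fin n → ℝ | u i = 0 ∨ u i = 1} := by
    ext u
    simp [Bd]
  rw [h]
  refine (isCompact_Cb n).isClosed.inter (isClosed_iUnion_of_finite fun i => ?_)
  exact (isClosed_eq (continuous_apply i) continuous_const).union
    (isClosed_eq (continuous_apply i) continuous_const)

theorem hLBL : StLBL := by
  intro E F _ _ X Y f U V hU hV hX hY hf n a b ha hb hab
  classical
  -- the good sets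
  let c : Bool → Set (Fin n → ℝ) := fun l =>
    interior {u | (u ∈ Cb n → b u ∈ V l) ∧ (u ∈ Bd n → a u ∈ U l)}
  have hcov : Cb n ⊆ ⋃ l, c l := by
    intro u hu
    by_cases hub : u ∈ Bd n
    · have hau : a u ∈ U true ∪ U false := hX (ha.2 hub)
      have key : ∀ l : Bool, a u ∈ U l → u ∈ c l := by
        intro l hl
        have hbl : b u ∈ V l := by
          rw [hab u hub]
          exact hf l ⟨ha.2 hub, hl⟩
        have e1 : ∀ᶠ v in nhds u, v ∈ Cb n → b v ∈ V l := by
          rw [← eventually_nhdsWithin_iff]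
          exact (hb.1 u hu).eventually ((hV l).mem_nhds hbl)
        have e2 : ∀ᶠ v in nhds u, v ∈ Bd n → a v ∈ U l := by
          rw [← eventually_nhdsWithin_iff]
          exact (ha.1 u hub).eventually ((hU l).mem_nhds hl)
        rw [mem_interior_iff_mem_nhds]
        exact e1.and e2
      rcases hau with h | h
      · exact mem_iUnion.2 ⟨true, key true h⟩
      · exact mem_iUnion.2 ⟨false, key false h⟩
    · have hbu : b u ∈ V true ∪ V false := hY (hb.2 hu)
      have key : ∀ l : Bool, b u ∈ V l → u ∈ c l := by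
        intro l hl
        have e1 : ∀ᶠ v in nhds u, v ∈ Cb n → b v ∈ V l := by
          rw [← eventually_nhdsWithin_iff]
          exact (hb.1 u hu).eventually ((hV l).mem_nhds hl)
        have e2 : ∀ᶠ v in nhds u, v ∈ Bd n → a v ∈ U l := by
          filter_upwards [(isClosed_Bd n).isOpen_compl.mem_nhds hub] with v hv hv'
          exact absurd hv' hv
        rw [mem_interior_iff_mem_nhds]
        exact e1.and e2
      rcases hbu with h | h
      · exact mem_iUnion.2 ⟨true, key true h⟩
      · exact mem_iUnion.2 ⟨false, key false h⟩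
  obtain ⟨δ, hδ, hL⟩ := lebesgue_number_lemma_of_metric (isCompact_Cb n)
    (fun l => isOpen_interior) hcov
  obtain ⟨M, hM⟩ := exists_nat_gt (1 / δ)
  have hMpos : (0 : ℝ) < M := lt_trans (by positivity) hM
  have hM0 : 0 < M := by exact_mod_cast hMpos
  have hMd : 1 / (M : ℝ) < δ := by
    rw [div_lt_iff₀ hMpos]
    rw [div_lt_iff₀ hδ] at hM
    linarith [mul_comm δ (M : ℝ)]
  have hcorner : ∀ k : Fin n → ℤ, (∀ i, 0 ≤ k i ∧ k i < M) →
      (fun i => (k i : ℝ) / M) ∈ Cb n := by
    intro k hk i
    have h1 : (0 : ℝ) ≤ k i := by exact_mod_cast (hk i).1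
    have h2 : (k i : ℝ) ≤ M := by exact_mod_cast (hk i).2.le
    exact ⟨by positivity, by rw [div_le_one hMpos]; exact h2⟩
  refine ⟨M, hM0, fun k => if h : (∀ i, 0 ≤ k i ∧ k i < M) then
    (hL _ (hcorner k h)).choose else true, ?_⟩
  intro k hk u hu
  have hspec := (hL _ (hcorner k hk)).choose_spec
  simp only [dif_pos hk]
  have hmem : u ∈ Metric.ball (fun i => (k i : ℝ) / M) δ := by
    rw [Metric.mem_ball, dist_pi_lt_iff hδ]
    intro i
    have h1 : (k i : ℝ) / M ≤ u i := by
      rw [div_le_iff₀ hMpos, mul_comm]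
      exact (hu i).1
    have h2 : u i ≤ (k i : ℝ) / M + 1 / M := by
      rw [← add_div, le_div_iff₀ hMpos, mul_comm]
      exact (hu i).2
    rw [Real.dist_eq, abs_lt]
    constructor <;> linarith
  have hint := interior_subset (hspec hmem)
  have huC : u ∈ Cb n := by
    intro i
    have h0 : (0 : ℝ) ≤ k i := by exact_mod_cast (hk i).1
    have h1 : (k i : ℝ) + 1 ≤ M := by exact_mod_cast (hk i).2
    have h2 := (hu i).1
    have h3 := (hu i).2
    constructor
    · by_contra hneg
      push Not at hneg
      have := mul_neg_of_pos_of_neg hMpos hneg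
      linarith
    · by_contra hgt
      push Not at hgt
      have : (M : ℝ) * 1 < M * u i := mul_lt_mul_of_pos_left hgt hMpos
      linarith
  exact ⟨hint.1 huC, fun h => hint.2 h⟩

end Pool.Agent.Helper9.FX
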