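import Pool.Agent.Helper84.FX.StT

/-!
# Module HTP: a map homotopic to a weak equivalence is a weak equivalence
-/

set_option autoImplicit false

namespace Pool.Agent.Helper9.FX

open Pool.Agent.Helper84.FX Set

theorem hHTP (hWEP : StWEP) (hCCT : StCCT) : StHTP := by
  intro E F _ _ X Y f g hf hg hfg
  have hWR := hWEP E F X Y f hf
  obtain ⟨H, ⟨hHc, hHm⟩, h0, h1⟩ := hfg
  refine ⟨hg, fun n a b ha hb hab => ?_⟩
  -- the boundary homotopy
  have hK : Mp (II ×ˢ Bd n) Y (fun q : ℝ × (Fin n → ℝ) => H (1 - q.1, a q.2)) := by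
    constructor
    · refine hHc.comp (ContinuousOn.prodMk (by fun_prop) ?_) ?_
      · exact ha.1.comp continuousOn_snd (fun q hq => hq.2)
      · intro q hq
        exact ⟨⟨by linarith [hq.1.2], by linarith [hq.1.1]⟩, ha.2 hq.2⟩
    · intro q hq
      exact hHm ⟨⟨by linarith [hq.1.2], by linarith [hq.1.1]⟩, ha.2 hq.2⟩
  have hK0 : ∀ u ∈ Bd n, H (1 - (0 : ℝ), a u) = b u := by
    intro u hu
    rw [sub_zero, h1 _ (ha.2 hu), hab u hu]
  have hK1 : ∀ u ∈ Bd n, H (1 - (1 : ℝ), a u) = f (a u) := by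
    intro u hu
    rw [sub_self, h0 _ (ha.2 hu)]
  obtain ⟨c, P, hc, hca, hP, hP0, hP1, hPb⟩ :=
    hWR n a b (fun q : ℝ × (Fin n → ℝ) => H (1 - q.1, a q.2)) ha hb hK hK0 hK1
  have hR : Mp (II ×ˢ Cb n) Y (fun q : ℝ × (Fin n → ℝ) => H (q.1, c q.2)) := by
    constructor
    · refine hHc.comp (ContinuousOn.prodMk (by fun_prop) ?_) ?_
      · exact hc.1.comp continuousOn_snd (fun q hq => hq.2)
      · intro q hq
        exact ⟨hq.1, hc.2 hq.2⟩
    · intro q hq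
      exact hHm ⟨hq.1, hc.2 hq.2⟩
  obtain ⟨-, hC2⟩ := hCCT F Y n P (fun q : ℝ × (Fin n → ℝ) => H (q.1, c q.2))
    (fun q : ℝ × (Fin n → ℝ) => H (1 - q.1, a q.2)) hP hR
    (fun u hu => by
      change P (1, u) = H (0, c u)
      rw [hP1 u hu, h0 _ (hc.2 hu)])
    (fun s hs u hu => hPb s hs u hu)
  obtain ⟨H', hH', hH0, hH1, hHb⟩ := hC2 (fun s hs u hu => by
    change H (s, c u) = H (1 - (1 - s), a u)
    rw [hca u hu, sub_sub_cancel])
  refine ⟨c, H', hc, hca, hH', ?_, ?_, ?_⟩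
  · intro u hu
    rw [hH0 u hu, hP0 u hu]
  · intro u hu
    rw [hH1 u hu]
    change H (1, c u) = g (c u)
    exact h1 _ (hc.2 hu)
  · intro s hs u hu
    rw [hHb s hs u hu]
    exact hK0 u hu

end Pool.Agent.Helper9.FX
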