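import Pool.Agent.Helper9.FX.StP

/-!
# Module PHI: assembly of T4
-/

set_option autoImplicit false

namespace Pool.Agent.Helper9.FX

open Set Complex
open Pool.Agent.Helper84.FX (Mp WE Htp II StGLU StCN2 StHTP StHEQ StCMP)
open Pool.Agent.Helper72.FX (nu NN W1 W0 LL gg J0 SS StKK kx ky kz)

theorem hPHI (hGLU : StGLU) (hCN2 : StCN2) (hHTP : StHTP) (hPHA : StPHA) (hPHB : StPHB)
    (hPCA : StPCA) (hPCT : StPCT) (hPQW : StPQW) (hPPW : StPPW) (hPPI : StPPI) (hPZV : StPZV) :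
    StPHI := by
  intro hKK U s hs
  have ht0 : ∀ t ∈ U, t ≠ 0 := fun t ht => (hs.2.2 t ht).2
  have hA := hPHA hKK U ht0
  have hB := hPHB U ht0
  have m2 : Mp (PU U) (QU U) Ph2 := (Htp_mp hB).1
  have m1 : Mp (PU U) (QU U) Ph1 := (Htp_mp hB).2
  have m0 : Mp (PU U) (QU U) Phi := (Htp_mp hA).2
  obtain ⟨hV1, hV2, -, -, -, -, -, -⟩ := hPCT U s hs
  obtain ⟨-, hcov, -, -, -, -, h12, -⟩ := hPCA U s hs
  obtain ⟨hQ1, hQ2, hQ3⟩ := hPQW U s hs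
  obtain ⟨hP1, hP2⟩ := hPPW U
  have hP3 := hPPI U s hs
  obtain ⟨hf, hz1, hz2, hz3⟩ := hPZV U s hs
  have oR1 : IsOpen R1 := isOpen_lt (by fun_prop) continuous_const
  have oR2 : IsOpen R2 := isOpen_lt continuous_const (by fun_prop)
  have hfst : (fun v : EQ => v.1) ∘ Ph2 = fun q : EP => q.2.2.1 := by
    funext q
    exact hf q
  have w1 : WE (PU U ∩ R1) (QU U ∩ V1 U s) Ph2 := by
    refine hCN2 _ _ _ (PU U ∩ R1) (QU U ∩ V1 U s) U Ph2 (fun v : EQ => v.1) ?_ hQ1 ?_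
    · exact ⟨m2.1.mono inter_subset_left, fun q hq => ⟨m2.2 hq.1, hz1 q hq⟩⟩
    · rw [hfst]; exact hP1
  have w2 : WE (PU U ∩ R2) (QU U ∩ V2 U s) Ph2 := by
    refine hCN2 _ _ _ (PU U ∩ R2) (QU U ∩ V2 U s) U Ph2 (fun v : EQ => v.1) ?_ hQ2 ?_
    · exact ⟨m2.1.mono inter_subset_left, fun q hq => ⟨m2.2 hq.1, hz2 q hq⟩⟩
    · rw [hfst]; exact hP2
  have w3 : WE (PU U ∩ (R1 ∩ R2)) (QU U ∩ (V1 U s ∩ V2 U s)) Ph2 := by
    refine hCN2 _ _ _ (PU U ∩ (R1 ∩ R2)) (QU U ∩ (V1 U s ∩ V2 U s)) (UC U) Ph2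
      (fun v : EQ => (v.1, ze1 s v)) ?_ hQ3 ?_
    · exact ⟨m2.1.mono inter_subset_left,
        fun q hq => ⟨m2.2 hq.1, hz1 q ⟨hq.1, hq.2.1⟩, hz2 q ⟨hq.1, hq.2.2⟩⟩⟩
    · -- the composite agrees with the map of PPI on the set
      refine hHTP _ _ (PU U ∩ (R1 ∩ R2)) (UC U) (fun q : EP => (q.2.2.1, zP s q)) _ hP3 ?_ ?_
      · have heq : ∀ q ∈ PU U ∩ (R1 ∩ R2),
            ((fun v : EQ => (v.1, ze1 s v)) ∘ Ph2) q = (q.2.2.1, zP s q) := by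
          intro q hq
          simp only [Function.comp]
          rw [hf q, hz3 q hq]
        exact ⟨hP3.1.1.congr heq, fun q hq => by rw [heq q hq]; exact hP3.1.2 hq⟩
      · have heq : ∀ q ∈ PU U ∩ (R1 ∩ R2),
            ((fun v : EQ => (v.1, ze1 s v)) ∘ Ph2) q = (q.2.2.1, zP s q) := by
          intro q hq
          simp only [Function.comp]
          rw [hf q, hz3 q hq]
        refine ⟨fun p => (p.2.2.2.1, zP s p.2), ⟨?_, ?_⟩, fun q _ => rfl, fun q hq =>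
          (heq q hq).symm⟩
        · exact hP3.1.1.comp continuousOn_snd (fun p hp => hp.2)
        · intro p hp
          exact hP3.1.2 hp.2
  have hX : PU U ⊆ R1 ∪ R2 := by
    intro q _
    rcases lt_or_ge q.2.2.2 1 with h | h
    · exact Or.inl h
    · exact Or.inr (lt_of_lt_of_le zero_lt_one h)
  have hY : QU U ⊆ V1 U s ∪ V2 U s := fun v hv => hcov v hv
  have wG : WE (PU U) (QU U) Ph2 :=
    hGLU _ _ (PU U) (QU U) Ph2 R1 R2 (V1 U s) (V2 U s) oR1 oR2 hV1 hV2 hX hY w1 w2 w3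
  have wG1 : WE (PU U) (QU U) Ph1 := hHTP _ _ (PU U) (QU U) Ph2 Ph1 wG m1 hB
  exact hHTP _ _ (PU U) (QU U) Ph1 Phi wG1 m0 hA

end Pool.Agent.Helper9.FX
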