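import Pool.Agent.Helper87.FX.StC

/-!
# Module TRA: transport of good points
-/

set_option autoImplicit false

namespace Pool.Agent.Helper9.FX

open Pool.Agent.Helper87.FX
open Set Topology Metric Filter
open scoped ContDiff

variable {n : ℕ}

private theorem transport (hFAM : StFAM) (hDER : StDER) (F : MvPolynomial (Fin n) ℂ)
    (H : Fin n → (Fin n → ℂ) → ℂ → ℂ) (hH : HH F H) (θ θ' : AV n → AV n)
    (hs : ContDiff ℝ ∞ θ) (hs' : ContDiff ℝ ∞ θ') (hl : ∀ y, θ' (θ y) = y)
    (hP : ∀ y, Pq F (θ y) = Pq F y)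
    (hF : ∀ e, Fam H e → Fam H (fun c x => θ' (e c (θ x)))) (y : AV n) (hy : Gd F H (θ y)) :
    Gd F H y := by
  have hPd : Differentiable ℝ (Pq F) := (hDER n F).1.differentiable (by simp)
  have hθd : Differentiable ℝ θ := hs.differentiable (by simp)
  have hθd' : Differentiable ℝ θ' := hs'.differentiable (by simp)
  intro ξ hξ
  have hξ0 : fderiv ℝ (Pq F) y ξ = 0 := hξ
  -- the image vector is in the kernel at the image point
  have hc1 : fderiv ℝ (Pq F) y = (fderiv ℝ (Pq F) (θ y)).comp (fderiv ℝ θ y) := by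
    rw [← fderiv_comp y (hPd (θ y)) (hθd y)]
    congr 1
    funext x
    exact (hP x).symm
  have hη : fderiv ℝ θ y ξ ∈ spn (Fl H) (θ y) := by
    apply hy
    change fderiv ℝ (Pq F) (θ y) (fderiv ℝ θ y ξ) = 0
    rw [← ContinuousLinearMap.comp_apply, ← hc1]
    exact hξ0
  have hc2 : (fderiv ℝ θ' (θ y)).comp (fderiv ℝ θ y) = ContinuousLinearMap.id ℝ (AV n) := by
    rw [← fderiv_comp y (hθd' (θ y)) (hθd y)]
    have : θ' ∘ θ = id := by
      funext x
      exact hl x
    rw [this, fderiv_id]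
  have hξe : fderiv ℝ θ' (θ y) (fderiv ℝ θ y ξ) = ξ := by
    rw [← ContinuousLinearMap.comp_apply, hc2]
    rfl
  -- the span is mapped into the span
  have hsp : spn (Fl H) (θ y) ≤ (spn (Fl H) y).comap (fderiv ℝ θ' (θ y)).toLinearMap := by
    unfold spn
    rw [Submodule.span_le]
    intro v hv
    simp only [mem_iUnion, mem_range] at hv
    obtain ⟨e, he, c, rfl⟩ := hv
    change fderiv ℝ θ' (θ y) (vel e (θ y) c) ∈
      Submodule.span ℝ (⋃ e ∈ Fl H, range (vel e y))
    have he' : Fam H (fun c x => θ' (e c (θ x))) := hF e he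
    have hfl := (hFAM n F H hH e he).1
    have hed : DifferentiableAt ℝ (fun c => e c (θ y)) 0 := by
      have h1 : ContDiff ℝ ∞ (fun c : ℂ => e c (θ y)) :=
        hfl.sm.comp (contDiff_id.prodMk contDiff_const)
      exact (h1.differentiable (by simp)) 0
    have hv : vel (fun c x => θ' (e c (θ x))) y =
        (fderiv ℝ θ' (θ y)).comp (vel e (θ y)) := by
      unfold vel
      have h0 : θ y = (fun c => e c (θ y)) 0 := (hfl.zero (θ y)).symm
      have h1 : fderiv ℝ (θ' ∘ (fun c => e c (θ y))) 0 =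
          (fderiv ℝ θ' ((fun c => e c (θ y)) 0)).comp (fderiv ℝ (fun c => e c (θ y)) 0) :=
        fderiv_comp 0 (hθd' _) hed
      rw [← h0] at h1
      exact h1
    apply Submodule.subset_span
    simp only [mem_iUnion, mem_range]
    exact ⟨_, he', c, by rw [hv]; rfl⟩
  have := hsp hη
  rw [Submodule.mem_comap] at this
  have h2 : (fderiv ℝ θ' (θ y)).toLinearMap (fderiv ℝ θ y ξ) = ξ := hξe
  rwa [h2] at this

private theorem sw_smooth : ContDiff ℝ ∞ (sw : AV n → AV n) := by
  unfold sw
  fun_prop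

private theorem fam_sw (H : Fin n → (Fin n → ℂ) → ℂ → ℂ) (e : ℂ → AV n → AV n) (he : Fam H e) :
    Fam H (fun c x => sw (e c (sw x))) := by
  induction he with
  | l j => exact Fam.r j
  | r j => exact Fam.l j
  | cl j s e he ih => exact Fam.cr j s _ ih
  | cr j s e he ih => exact Fam.cl j s _ ih

theorem hTRA : StFLO → StFAM → StDER → StTRA := by
  intro hFLO hFAM hDER n F H hH
  refine ⟨?_, ?_, ?_⟩
  · intro j s y hy
    obtain ⟨⟨hsm, h0, hinv, hPq, -⟩, -⟩ := hFLO n F H hH j
    refine transport hFAM hDER F H hH (El H j s) (El H j (-s)) ?_ ?_ (fun x => hinv s x)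
      (fun x => hPq s x) (fun e he => Fam.cl j s e he) y hy
    · exact hsm.comp (contDiff_const.prodMk contDiff_id)
    · exact hsm.comp (contDiff_const.prodMk contDiff_id)
  · intro j s y hy
    obtain ⟨-, ⟨hsm, h0, hinv, hPq, -⟩⟩ := hFLO n F H hH j
    refine transport hFAM hDER F H hH (Er H j s) (Er H j (-s)) ?_ ?_ (fun x => hinv s x)
      (fun x => hPq s x) (fun e he => Fam.cr j s e he) y hy
    · exact hsm.comp (contDiff_const.prodMk contDiff_id)
    · exact hsm.comp (contDiff_const.prodMk contDiff_id)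
  · intro y hy
    refine transport hFAM hDER F H hH sw sw sw_smooth sw_smooth (fun x => rfl) (fun x => ?_)
      (fun e he => fam_sw H e he) y hy
    simp only [Pq, sw]
    ring

end Pool.Agent.Helper9.FX
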