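import Pool.Agent.Helper84.FX.StT
import Pool.Agent.Helper72.FX.Defs

/-!
# Project FX, section T4: `Phi : PU U → QU U` is a weak equivalence

`U` is open in `ℂ` without `0` and `s` is a continuous square root on `U` (`SQ U s`).
Target: `StPHI`.  All formulas of this file have been tested numerically.
Module `XXX` proves `hXXX : StXXX`; statements of this file (and of StT) can be hypotheses.

Plan.  `Phi` is homotopic to `Ph1` (PHA), `Ph1` to `Ph2` (PHB).  `Q` over `U` has two charts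
(PCA, PCT): coordinates `(ζ, ρ)` on `V1` and `(1/ζ, p)` on `V2`.  `Ph2` respects the covers
`{r < 1}, {0 < r}` of `P` and `V1, V2` of `Q`; on each piece both sides are equivalent to `U`, on the
intersection both are equivalent to `U × ℂ∖0` by `ζ` (PQW, PPW, PPI, PZV).  Gluing: PHI.
-/

set_option autoImplicit false

namespace Pool.Agent.Helper9.FX

open Set Complex
open Pool.Agent.Helper84.FX (Mp WE Htp II StGLU StCN2 StHTP StHEQ StCMP)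
open Pool.Agent.Helper72.FX (nu NN W1 W0 LL gg J0 SS StKK kx ky kz)

noncomputable section

/-- coordinates `a b t r` -/
abbrev EP : Type := ℂ × ℂ × ℂ × ℝ

/-- coordinates `t x y z` -/
abbrev EQ : Type := ℂ × ℂ × ℂ × ℂ

/-- the double mapping cylinder of `{ν = 0} → ℂ³` over `U` -/
def PU (U : Set ℂ) : Set EP :=
  {q | q.2.2.1 ∈ U ∧ 0 ≤ q.2.2.2 ∧ q.2.2.2 ≤ 1 ∧
    (0 < q.2.2.2 → q.2.2.2 < 1 → nu q.1 q.2.1 q.2.2.1 = 0)}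

/-- the threefold `Q` over `U` -/
def QU (U : Set ℂ) : Set EQ :=
  {v | v.1 ∈ U ∧ v.2.2.1 * (1 + v.1 * v.2.1) = v.2.1 + v.2.2.2 ^ 2}

/-- the map: `ν K` at `r = 0`, the point `O` for `r > 0` -/
def Phi (q : EP) : EQ :=
  if q.2.2.2 ≤ 0 then
    (q.2.2.1, nu q.1 q.2.1 q.2.2.1 * kx q.1 q.2.1 q.2.2.1,
      nu q.1 q.2.1 q.2.2.1 * ky q.1 q.2.1 q.2.2.1, nu q.1 q.2.1 q.2.2.1 * kz q.1 q.2.1 q.2.2.1)
  else (q.2.2.1, 0, 0, 0)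

/-- `U` is open, `s` is a continuous square root on `U` and `0` is not in `U` -/
def SQ (U : Set ℂ) (s : ℂ → ℂ) : Prop :=
  IsOpen U ∧ ContinuousOn s U ∧ ∀ t ∈ U, s t ^ 2 = t ∧ t ≠ 0

/-- TARGET of T4 -/
def StPHI : Prop := StKK → ∀ (U : Set ℂ) (s : ℂ → ℂ), SQ U s → WE (PU U) (QU U) Phi

/-! ### Matrices -/

/-- the point of `Q` given by a symmetric matrix `M = [[1 + t x, t z], [t z, -t + t² y]]` -/
def cS (t : ℂ) (M : Matrix (Fin 2) (Fin 2) ℂ) : EQ :=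
  (t, (M 0 0 - 1) / t, (M 1 1 + t) / t ^ 2, M 0 1 / t)

def M1 (a b t : ℂ) : Matrix (Fin 2) (Fin 2) ℂ := !![1 + t * b, -a; t * a, -(1 + t * b)]

def e11 (a b t : ℂ) : Matrix (Fin 2) (Fin 2) ℂ :=
  !![(2 + t * b) / 2, -a / 2; t * a / 2, -(t * b) / 2]

def e22 (a b t : ℂ) : Matrix (Fin 2) (Fin 2) ℂ :=
  !![-(t * b) / 2, a / 2; -(t * a) / 2, (2 + t * b) / 2]

def e21 (a b t : ℂ) : Matrix (Fin 2) (Fin 2) ℂ := !![a, -b; 2 + t * b, -a]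

def e12 (a b t : ℂ) : Matrix (Fin 2) (Fin 2) ℂ :=
  !![-(t * a) / 4, (2 + t * b) / 4; -(t ^ 2 * b) / 4, t * a / 4]

/-- real part of the diagonal entry -/
def al (u : ℂ) : ℂ := 1 - u ^ 2
/-- imaginary part of the diagonal entry -/
def be (u : ℂ) : ℂ := 2 * u - u ^ 2
/-- the determinant, `nk 0 = al² + be²` -/
def nk (k u : ℂ) : ℂ := 1 + 2 * (1 - k ^ 2) * u ^ 2 * (1 - u) ^ 2

/-- the matrix `(A, kB; kC, D)` in the basis `e_ij` -/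
def gk (k u a b t : ℂ) : Matrix (Fin 2) (Fin 2) ℂ :=
  (al u + I * be u) • e11 a b t + (k * (I - 1) * u * (1 - u)) • e12 a b t +
    (-(k * (1 + I) * u * (1 - u))) • e21 a b t + (al u - I * be u) • e22 a b t

/-- the symmetric matrix of stage 2 -/
def Sk (k u a b t : ℂ) : Matrix (Fin 2) (Fin 2) ℂ :=
  -((nk k u)⁻¹ • (gk k u a b t * J0 t * (gk k u a b t).transpose))

/-- PKV.  Values of `kx, ky, kz`.
PROOF.  `kp = h.choose` (`dif_pos h`), `h : StKK`; apply the algebra homomorphism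
`φ = MvPolynomial.aeval ![a, b, t]` to the three identities `h.choose_spec`.  For every algebra
homomorphism `φ : A → B`: `φ (SS u a b t i j) = SS (φ u) (φ a) (φ b) (φ t) i j` and
`φ (nu a b t) = nu (φ a) (φ b) (φ t)` (unfold everything, `cc` is `algebraMap`,
`AlgHom.commutes`). -/
def StPKV : Prop := StKK → ∀ a b t : ℂ,
  SS 1 a b t 0 0 = 1 + t * nu a b t * kx a b t ∧
  SS 1 a b t 0 1 = t * nu a b t * kz a b t ∧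
  SS 1 a b t 1 1 = -t + t ^ 2 * nu a b t * ky a b t

/-- PMX.  Elementary facts on the matrices.
PROOF.  (1) `det (1 + c N_w) = (1 - c w₁ w₂)(1 + c w₁ w₂) + c² w₁² w₂² = 1`, so `det LL = 1`,
`det gg = 1` (`Matrix.det_mul`).  (2) `S = -(g J₀ gᵀ)` is symmetric because `J₀` is diagonal.
(3) `det S = det g² det J₀ = -t` (2 by 2, so the sign disappears).  (4) for `u = 0` both factors of
`gg` are 1.  (5) the entries are polynomials in `u a b t`.  (6) `y (1 + t x) = (M₁₁ + t) M₀₀ / t²`,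
`x + z² = (M₀₀ - 1)/t + M₀₁²/t² = (t M₀₀ - t + M₀₀ M₁₁ + t)/t²` by the determinant. -/
def StPMX : Prop :=
  (∀ u a b t : ℂ, (gg u a b t).det = 1) ∧
  (∀ u a b t : ℂ, SS u a b t 1 0 = SS u a b t 0 1) ∧
  (∀ u a b t : ℂ, (SS u a b t).det = -t) ∧
  (∀ a b t : ℂ, SS 0 a b t = -(J0 t)) ∧
  (∀ i j : Fin 2, Continuous fun q : ℂ × ℂ × ℂ × ℂ => SS q.1 q.2.1 q.2.2.1 q.2.2.2 i j) ∧
  (∀ (U : Set ℂ) (t : ℂ) (M : Matrix (Fin 2) (Fin 2) ℂ), t ∈ U → t ≠ 0 → M 1 0 = M 0 1 →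
    M.det = -t → cS t M ∈ QU U)

/-- PGE.  On `ν = 0` the family `gg` is the constant coefficient family in the basis `e_ij`.
PROOF.  Put `T(p,q) = pq M₁ - p² e₁₂ + q² e₂₁`.
(i) `LL m p q a b t = 1 + m T(p,q)` if `ν = 0` (for all complex `m, p, q`).  Indeed
`N_w = w ⊗ (-w₂, w₁)`, `N_(W1) N_(W0) = det(W1,W0) W1 ⊗ (-W0₂, W0₁)` and
`det(W1,W0) = ν (p² t/4 - q²) = 0`; and `-N_(W1)/2 + (t/2) N_(W0) = T(p,q)` modulo `ν`; for the entry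
`(0,1)`: the difference is `ν (q²/2 - p² t/8)`; the other entries are similar (use
`linear_combination (c) * h` with `h : ν = 0`, `c` a polynomial which is found by comparing, or
substitute `b (2 + t b) = a²`).
(ii) `gg u = (1 - i u T(1,-1)) (1 + u T(1,i))`, `-i T(1,-1) = i M₁ + i e₁₂ - i e₂₁`,
`T(1,i) = i M₁ - e₁₂ - e₂₁`, `M₁ = e₁₁ - e₂₂`, `1 = e₁₁ + e₂₂`, and `e_ij` are matrix units modulo `ν`:
so `gg u` has in this basis the matrix `(1 + u [[i,i],[-i,-i]]) (1 + u [[i,-1],[-1,-i]])` =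
`[[1+2iu-(1+i)u², (i-1)u(1-u)], [-(1+i)u(1-u), 1-2iu-(1-i)u²]]`, and `1 ± 2iu - (1 ± i)u² =
(1-u²) ± i(2u-u²)`. -/
def StPGE : Prop := ∀ u a b t : ℂ, nu a b t = 0 → gg u a b t = gk 1 u a b t

/-- PGK.  Facts on `gk` and `Sk` (with `ν = 0`).
PROOF.  (1) `det (A e₁₁ + B e₁₂ + C e₂₁ + D e₂₂) = A D - B C` modulo `ν` and
`(al + i be)(al - i be) = 1 + 2u²(1-u)²`, `B C = 2 k² u² (1-u)²`.  (2) `e₁₁ + e₂₂ = 1`.
(3) `gk k 1 = i M₁`, `M₁ J₀ = J₀ M₁ᵀ`, `M₁² = 1` modulo `ν`: `(i M₁) J₀ (i M₁)ᵀ = -J₀`.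
(4) `gk 0 u = al + i be M₁`, so `gk 0 u J₀ (gk 0 u)ᵀ = (al² - be²) J₀ + 2 i al be M₁ J₀`.
(5) symmetric: `J₀` is diagonal.  (6) `det = (nk)⁻² nk² (-t)` from (1), if `nk ≠ 0`.
(7) for `k, u` real in `[0,1]`: `nk ≥ 1`. (8) polynomials. -/
def StPGK : Prop :=
  (∀ k u a b t : ℂ, nu a b t = 0 → (gk k u a b t).det = nk k u) ∧
  (∀ k a b t : ℂ, gk k 0 a b t = 1) ∧
  (∀ k a b t : ℂ, nu a b t = 0 → gk k 1 a b t * J0 t * (gk k 1 a b t).transpose = -(J0 t)) ∧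
  (∀ u a b t : ℂ, nu a b t = 0 → nk 0 u ≠ 0 → cS t (Sk 0 u a b t) = cS t
    (-((nk 0 u)⁻¹ • ((al u ^ 2 - be u ^ 2) • J0 t + (2 * I * al u * be u) • (M1 a b t * J0 t))))) ∧
  (∀ k u a b t : ℂ, Sk k u a b t 1 0 = Sk k u a b t 0 1) ∧
  (∀ k u a b t : ℂ, nu a b t = 0 → nk k u ≠ 0 → (Sk k u a b t).det = -t) ∧
  (∀ k u : ℝ, 0 ≤ k → k ≤ 1 → ∃ m : ℝ, 1 ≤ m ∧ nk k u = m) ∧
  (∀ i j : Fin 2, Continuous fun q : ℂ × ℂ × ℂ × ℂ × ℂ =>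
    (gk q.1 q.2.1 q.2.2.1 q.2.2.2.1 q.2.2.2.2 * J0 q.2.2.2.2 *
      (gk q.1 q.2.1 q.2.2.1 q.2.2.2.1 q.2.2.2.2).transpose) i j)

/-! ### The maps -/

/-- the map after stage 1 -/
def Ph1 (q : EP) : EQ :=
  if q.2.2.2 ≤ 0 then (q.2.2.1, -2 / q.2.2.1, 2 / q.2.2.1, 0)
  else if q.2.2.2 < 1 then cS q.2.2.1 (SS (q.2.2.2 : ℂ) q.1 q.2.1 q.2.2.1)
  else (q.2.2.1, 0, 0, 0)

/-- the map after stage 2 -/
def Ph2 (q : EP) : EQ :=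
  if q.2.2.2 ≤ 0 then (q.2.2.1, -2 / q.2.2.1, 2 / q.2.2.1, 0)
  else if q.2.2.2 < 1 then
    (q.2.2.1,
      (-2 * al q.2.2.2 ^ 2 - 2 * I * al q.2.2.2 * be q.2.2.2 * (1 + q.2.2.1 * q.2.1)) /
        (nk 0 q.2.2.2 * q.2.2.1),
      (2 * al q.2.2.2 ^ 2 - 2 * I * al q.2.2.2 * be q.2.2.2 * (1 + q.2.2.1 * q.2.1)) /
        (nk 0 q.2.2.2 * q.2.2.1),
      -2 * I * al q.2.2.2 * be q.2.2.2 * q.1 / nk 0 q.2.2.2)
  else (q.2.2.1, 0, 0, 0)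

/-- the end points of a homotopy are maps -/
theorem Htp_mp {E F : Type} [TopologicalSpace E] [TopologicalSpace F] {X : Set E} {Y : Set F}
    {f g : E → F} (h : Htp X Y f g) : Mp X Y f ∧ Mp X Y g := by
  obtain ⟨H, ⟨hc, hm⟩, h0, h1⟩ := h
  have z0 : (0 : ℝ) ∈ II := ⟨le_rfl, zero_le_one⟩
  have z1 : (1 : ℝ) ∈ II := ⟨zero_le_one, le_rfl⟩
  refine ⟨⟨?_, ?_⟩, ?_, ?_⟩
  · have : ContinuousOn (fun x => H (0, x)) X :=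
      hc.comp (by fun_prop) (fun x hx => ⟨z0, hx⟩)
    exact this.congr fun x hx => (h0 x hx).symm
  · intro x hx
    rw [← h0 x hx]
    exact hm ⟨z0, hx⟩
  · have : ContinuousOn (fun x => H (1, x)) X :=
      hc.comp (by fun_prop) (fun x hx => ⟨z1, hx⟩)
    exact this.congr fun x hx => (h1 x hx).symm
  · intro x hx
    rw [← h1 x hx]
    exact hm ⟨z1, hx⟩

/-- PHA.  First homotopy, from `Ph1` to `Phi`.
PROOF.  `H(h, q)` with `q = (a,b,t,r)`: `cS t (SS h a b t)` if `r ≤ 0`,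
`cS t (SS (min 1 (h + r)) a b t)` if `0 < r < 1`, `(t, 0, 0, 0)` if `r ≥ 1`.
Continuous on `I × PU`: `PU` is the union of the three relatively closed sets `r = 0`, `r = 1` and
`ν = 0`, and on them `H` is `cS t (SS h a b t)`, `(t,0,0,0)` and
`cS t (SS (min 1 (h + r)) a b t)` (for `ν = 0`: at `r = 0` `min 1 h = h`; at `r = 1`
`SS 1 a b t = J₀` by PKV, and `cS t J₀ = (t,0,0,0)`).  Use `ContinuousOn.union_isClosed` or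
`LocallyFinite`, division by `t ≠ 0` is continuous.  Values in `QU` by PMX (6), `(t,0,0,0) ∈ QU`.
`H(0,q) = Ph1 q` (`SS 0 = -J₀`: `cS t (-J₀) = (t, -2/t, 2/t, 0)`; `min 1 r = r`), `H(1,q) = Phi q`
(`r ≤ 0`: PKV and `(ν k + ...)`: `(1 + t ν kx - 1)/t = ν kx` and so on; `0 < r < 1`: `ν = 0`,
`min 1 (1 + r) = 1`). -/
def StPHA : Prop := StKK → ∀ U : Set ℂ, (∀ t ∈ U, t ≠ 0) → Htp (PU U) (QU U) Ph1 Phi

/-- PHB.  Second homotopy, from `Ph2` to `Ph1`.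
PROOF.  `H(k, q)`: `(t,-2/t,2/t,0)` if `r ≤ 0`, `cS t (Sk k r a b t)` if `0 < r < 1`,
`(t,0,0,0)` if `r ≥ 1`.  As in PHA: on `ν = 0` (all `0 ≤ r ≤ 1`) `H` is `cS t (Sk k r a b t)`, because
`nk k 0 = nk k 1 = 1`, `Sk k 0 = -J₀`, `Sk k 1 = J₀` (PGK (2), (3)).  Continuous since `nk ≥ 1`
(PGK (7)).  In `QU` by PMX (6) with PGK (5), (6).  `k = 0`: PGK (4), entries
`(M₁ J₀)₀₀ = 1 + t b`, `(M₁ J₀)₀₁ = t a`, `(M₁ J₀)₁₁ = t (1 + t b)`, `nk 0 = al² + be²`.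
`k = 1`: `nk 1 r = 1` and PGE. -/
def StPHB : Prop := ∀ U : Set ℂ, (∀ t ∈ U, t ≠ 0) → Htp (PU U) (QU U) Ph2 Ph1

/-! ### Charts of `Q` -/

def dd (v : EQ) : ℂ := v.2.1 - v.2.2.1

def pp (w : ℂ) (v : EQ) : ℂ := v.2.1 + v.2.2.1 + 2 * v.2.2.2 / w

def rr (w : ℂ) (v : EQ) : ℂ := v.2.1 + v.2.2.1 - 2 * v.2.2.2 / w

/-- `ζ ≠ ∞` -/
def V1 (U : Set ℂ) (s : ℂ → ℂ) : Set EQ := {v | v.1 ∈ U ∧ (dd v ≠ 0 ∨ rr (s v.1) v ≠ 0)}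

/-- `ζ ≠ 0` -/
def V2 (U : Set ℂ) (s : ℂ → ℂ) : Set EQ :=
  {v | v.1 ∈ U ∧ (pp (s v.1) v ≠ 0 ∨ dd v + 4 / v.1 ≠ 0)}

/-- `ζ` -/
def ze1 (s : ℂ → ℂ) (v : EQ) : ℂ :=
  (pp (s v.1) v * (starRingEnd ℂ) (dd v) + (dd v + 4 / v.1) * (starRingEnd ℂ) (rr (s v.1) v)) /
    (dd v * (starRingEnd ℂ) (dd v) + rr (s v.1) v * (starRingEnd ℂ) (rr (s v.1) v))

/-- `1/ζ` -/
def ze2 (s : ℂ → ℂ) (v : EQ) : ℂ :=
  (dd v * (starRingEnd ℂ) (pp (s v.1) v) + rr (s v.1) v * (starRingEnd ℂ) (dd v + 4 / v.1)) /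
    (pp (s v.1) v * (starRingEnd ℂ) (pp (s v.1) v) +
      (dd v + 4 / v.1) * (starRingEnd ℂ) (dd v + 4 / v.1))

/-- the point with given `t`, `w = s t`, `d = x - y`, `p`, `ρ` -/
def pt (t w d p ρ : ℂ) : EQ := (t, (p + ρ) / 4 + d / 2, (p + ρ) / 4 - d / 2, w * (p - ρ) / 4)

/-- inverse of the chart `(ζ, ρ)` -/
def ch1 (s : ℂ → ℂ) (t ζ ρ : ℂ) : EQ := pt t (s t) (ζ * ρ - 4 / t) (ζ * (ζ * ρ - 4 / t)) ρ

/-- inverse of the chart `(ζ', p)` -/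
def ch2 (s : ℂ → ℂ) (t ζ p : ℂ) : EQ := pt t (s t) (ζ * p) p (ζ * (ζ * p + 4 / t))

/-- PCA.  Algebra of the charts.
PROOF.  (1) `p ρ = (x+y)² - 4z²/t`, `d (d + 4/t) = (x-y)² + 4(x-y)/t`, the difference is
`(4/t)(t x y - z² - x + y) = 0`.  (2) if `d = 0` and `ρ = 0` then `d + 4/t ≠ 0`.
(3) If `d ≠ 0` put `ζ = p/d`, else `ρ ≠ 0` and put `ζ = (d + 4/t)/ρ`; in both cases `p = ζ d`,
`d + 4/t = ζ ρ` by (1); so the numerator of `ze1` is `ζ` times the denominator, which is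
`|d|² + |ρ|² ≠ 0` (real and positive).  So `ze1 = ζ`; then `ch1 (ζ, ρ) = v` by solving for `x y z`
(`s t * s t = t`, `w (p-ρ)/4 = w (4 z/w)/4 = z`).
(4) direct: `dd (pt ..) = d`, `pp = p`, `rr = ρ` (w ≠ 0), the equation of `Q` is `p ρ = d (d+4/t)`
(backwards computation of (1)); in `V1`: if `d = 0` and `ρ = 0` then `ζ ρ - 4/t = -4/t = 0`, absurd.
(5), (6) the same for the other chart: if `p ≠ 0` put `ζ' = d/p`, else `d + 4/t ≠ 0`, `ζ' = ρ/(d+4/t)`.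
(7) `p = ζ d`, `d + 4/t = ζ ρ`: if `ζ = 0` both vanish, so `v` is not in `V2`; if both vanish and
`ζ ≠ 0` then `d = ρ = 0`, not in `V1`.  (8) from (7) and (4). -/
def StPCA : Prop := ∀ (U : Set ℂ) (s : ℂ → ℂ), SQ U s →
  (∀ v ∈ QU U, pp (s v.1) v * rr (s v.1) v = dd v * (dd v + 4 / v.1)) ∧
  (∀ v ∈ QU U, v ∈ V1 U s ∪ V2 U s) ∧
  (∀ v ∈ QU U ∩ V1 U s, pp (s v.1) v = ze1 s v * dd v ∧ dd v + 4 / v.1 = ze1 s v * rr (s v.1) v ∧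
    ch1 s v.1 (ze1 s v) (rr (s v.1) v) = v) ∧
  (∀ t ∈ U, ∀ ζ ρ : ℂ, ch1 s t ζ ρ ∈ QU U ∩ V1 U s ∧ (ch1 s t ζ ρ).1 = t ∧
    ze1 s (ch1 s t ζ ρ) = ζ ∧ rr (s t) (ch1 s t ζ ρ) = ρ) ∧
  (∀ v ∈ QU U ∩ V2 U s, dd v = ze2 s v * pp (s v.1) v ∧ rr (s v.1) v = ze2 s v * (dd v + 4 / v.1) ∧
    ch2 s v.1 (ze2 s v) (pp (s v.1) v) = v) ∧
  (∀ t ∈ U, ∀ ζ p : ℂ, ch2 s t ζ p ∈ QU U ∩ V2 U s ∧ (ch2 s t ζ p).1 = t ∧
    ze2 s (ch2 s t ζ p) = ζ ∧ pp (s t) (ch2 s t ζ p) = p) ∧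
  (∀ v ∈ QU U ∩ V1 U s, (v ∈ V2 U s ↔ ze1 s v ≠ 0)) ∧
  (∀ t ∈ U, ∀ ζ ρ : ℂ, (ch1 s t ζ ρ ∈ V2 U s ↔ ζ ≠ 0))

/-- PCT.  Topology of the charts.
PROOF.  `s`, `1/s`, `1/t` are continuous on `U` (nonzero there), `U` is open, so `fst ⁻¹ U` is open and
`dd, pp, rr` are continuous on it; preimages of `{0}ᶜ` are open (`ContinuousOn.isOpen_inter_preimage`).
The denominators of `ze1`, `ze2` do not vanish on `V1`, `V2`. -/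
def StPCT : Prop := ∀ (U : Set ℂ) (s : ℂ → ℂ), SQ U s →
  IsOpen (V1 U s) ∧ IsOpen (V2 U s) ∧ ContinuousOn (ze1 s) (V1 U s) ∧
  ContinuousOn (ze2 s) (V2 U s) ∧ ContinuousOn (fun v : EQ => rr (s v.1) v) (V1 U s) ∧
  ContinuousOn (fun v : EQ => pp (s v.1) v) (V2 U s) ∧
  ContinuousOn (fun q : ℂ × ℂ × ℂ => ch1 s q.1 q.2.1 q.2.2) (U ×ˢ univ) ∧
  ContinuousOn (fun q : ℂ × ℂ × ℂ => ch2 s q.1 q.2.1 q.2.2) (U ×ˢ univ)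

/-- `U × (ℂ without 0)` -/
def UC (U : Set ℂ) : Set (ℂ × ℂ) := {q | q.1 ∈ U ∧ q.2 ≠ 0}

/-- PQW.  The pieces of `Q`.
PROOF.  HEQ.  (1) `f = fst`, `g t = ch1 s t 0 0`; `f (g t) = t`; homotopy
`H(h, v) = ch1 s v.1 (h * ze1 s v) (h * rr (s v.1) v)` from `g (f v)` to `v` (PCA (3), (4)).
(2) the same with `ch2`, `ze2`, `pp`.  (3) `f v = (v.1, ze1 s v)`, `g (t, ζ) = ch1 s t ζ 0`,
`f (g q) = q`; homotopy `H(h, v) = ch1 s v.1 (ze1 s v) (h * rr (s v.1) v)`, in `V2` by PCA (7), (8)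
(`ze1 s v ≠ 0`). -/
def StPQW : Prop := ∀ (U : Set ℂ) (s : ℂ → ℂ), SQ U s →
  WE (QU U ∩ V1 U s) U (fun v : EQ => v.1) ∧ WE (QU U ∩ V2 U s) U (fun v : EQ => v.1) ∧
  WE (QU U ∩ (V1 U s ∩ V2 U s)) (UC U) (fun v : EQ => (v.1, ze1 s v))

/-- `r < 1` -/
def R1 : Set EP := {q | q.2.2.2 < 1}
/-- `0 < r` -/
def R2 : Set EP := {q | 0 < q.2.2.2}

/-- PPW.  The pieces of `P`.
PROOF.  HEQ.  (1) `f = t`, `g t = (0,0,t,0)`; homotopy from `g (f q)` to `q`: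
`H(h, (a,b,t,r)) = (min(1,2h) a, min(1,2h) b, t, max(0,2h-1) r)`: if `2h ≤ 1` the last coordinate is 0;
if `2h ≥ 1` then `a, b` are unchanged and `0 ≤ (2h-1) r ≤ r < 1` (if `0 < (2h-1) r` then `0 < r`).
(2) `g t = (0,0,t,1)`, last coordinate `1 - max(0,2h-1)(1-r)`. -/
def StPPW : Prop := ∀ U : Set ℂ,
  WE (PU U ∩ R1) U (fun q : EP => q.2.2.1) ∧ WE (PU U ∩ R2) U (fun q : EP => q.2.2.1)

/-- the function `ζ ∘ Ph2` on `0 < r < 1` -/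
def zP (s : ℂ → ℂ) (q : EP) : ℂ :=
  I * (be q.2.2.2 / al q.2.2.2) * (1 + q.2.2.1 * q.2.1 + s q.2.2.1 * q.1)

/-- PPI.  The intersection piece of `P`.
PROOF.  Write `τ(r) = be r / al r = r(2-r)/((1-r)(1+r))`, positive and continuous on `0 < r < 1`,
`τ(1/2) = 1`.  For `t ∈ U`, `w = s t`: `(a, b) ↦ λ = 1 + t b + w a` is a bijection from `{ν(a,b,t) = 0}`
to `ℂ∖0` with inverse `m(t,λ)`: `a = (λ - λ⁻¹)/(2w)`, `b = ((λ + λ⁻¹)/2 - 1)/t`; indeed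
`(1 + t b)² - t a² = 1 + t ν`, so `ν = 0` iff `(1 + t b + w a)(1 + t b - w a) = 1`.
HEQ with `f q = (t, zP s q)`, `g (t, ζ) = (m(t, -i ζ), t, 1/2)`: `f (g (t,ζ)) = (t, i τ(1/2) (-i ζ)) =
(t, ζ)`.  Homotopy from `g (f q)` to `q = (a,b,t,r)`:
`H(h,q) = (m(t, λ τ(r) / τ(r_h)), t, r_h)`, `r_h = (1-h)/2 + h r ∈ (0,1)`; continuous, for `h = 0` it is
`g (t, i τ(r) λ)`, for `h = 1` it is `q` because `m(t, λ) = (a, b)`. -/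
def StPPI : Prop := ∀ (U : Set ℂ) (s : ℂ → ℂ), SQ U s →
  WE (PU U ∩ (R1 ∩ R2)) (UC U) (fun q : EP => (q.2.2.1, zP s q))

/-- PZV.  Values of `Ph2`.
PROOF.  `d + 4/t` etc. of `Ph2 q`: for `0 < r < 1`: `d = -4 al²/(N t)`, `d + 4/t = 4 be²/(N t)`
(`N = nk 0 r = al² + be²`), `p = -4 i al be λ/(N t)`, `ρ = -4 i al be (1 + t b - w a)/(N t)` with
`w = s t`, `1/w = w/t`, `λ = 1 + t b + w a`.  `al ≠ 0` for `r < 1` and `be ≠ 0` for `0 < r`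
(`al = (1-r)(1+r)`, `be = r (2-r)`), so `d ≠ 0`, `d + 4/t ≠ 0`.  For `r ≤ 0`: `d = -4/t ≠ 0`.  For
`r ≥ 1`: `d + 4/t = 4/t ≠ 0`.  (4) `ze1 = p/d = i be λ/al` by PCA (3) (`p = ze1 d`). -/
def StPZV : Prop := ∀ (U : Set ℂ) (s : ℂ → ℂ), SQ U s →
  (∀ q : EP, (Ph2 q).1 = q.2.2.1) ∧
  (∀ q ∈ PU U ∩ R1, Ph2 q ∈ V1 U s) ∧ (∀ q ∈ PU U ∩ R2, Ph2 q ∈ V2 U s) ∧
  (∀ q ∈ PU U ∩ (R1 ∩ R2), ze1 s (Ph2 q) = zP s q)

end

end Pool.Agent.Helper9.FX
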